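import Pool.Agent.V1151.MTC.Main

/-!
# Motivic t-structures and change of the category: core lemmas
-/

set_option autoImplicit false
set_option linter.unusedSectionVars false
set_option linter.unusedSimpArgs false
set_option backward.isDefEq.respectTransparency false
set_option backward.defeqAttrib.useBackward true

open CategoryTheory Limits MonoidalCategory Pretriangulated Triangulated

namespace Pool.Agent.H138.MTB

universe v u w v' u'

open Pool.Agent.Y116.MT Pool.Agent.V1151.MTC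

section Hom

variable {C : Type u} [Category.{v} C] [Preadditive C] [HasZeroObject C] [HasShift C ℤ]
  [∀ n : ℤ, (shiftFunctor C n).Additive] [Pretriangulated C]
  {A : Type*} [Category A] [Abelian A] (H : C ⥤ A) [H.IsHomological]
  {X Y Z : C} {f : X ⟶ Y} {g : Y ⟶ Z} {h : Z ⟶ X⟦(1 : ℤ)⟧}
  (hT : Triangle.mk f g h ∈ distTriang C)

include hT

lemma hz3' (n : ℤ) (h1 : Epi (H.map (f⟦n⟧'))) (h2 : Mono (H.map (f⟦n + 1⟧'))) :
    IsZero (H.obj (Z⟦n⟧)) := by
  let _ := Functor.ShiftSequence.tautological H ℤ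
  have e1 := (H.homologySequence_epi_shift_map_mor₁_iff _ hT n).1 h1
  have e2 := (H.homologySequence_mono_shift_map_mor₁_iff _ hT n (n + 1) (by omega)).1 h2
  have e3 : Epi (H.map (g⟦n⟧')) :=
    (H.homologySequence_epi_shift_map_mor₂_iff _ hT n (n + 1) (by omega)).2 e2
  have e4 : H.map (g⟦n⟧') = 0 := e1
  rw [IsZero.iff_id_eq_zero, ← cancel_epi (H.map (g⟦n⟧')), e4]
  simp

end Hom

section one

variable {C : Type u} [Category.{v} C] [Preadditive C] [HasZeroObject C] [HasShift C ℤ]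
  [∀ n : ℤ, (shiftFunctor C n).Additive] [Pretriangulated C] [MonoidalCategory C]
  [SymmetricCategory C] [TensorTriangulated C]

variable {E : Type w} [Field E] {R : Realisation C E}

lemma retract_coh {X Z : C} (s : X ⟶ Z) (r : Z ⟶ X) (hsr : s ≫ r = 𝟙 X) {i : ℤ}
    (hZ : IsZero (R.H.obj (Z⟦i⟧))) : IsZero (R.H.obj (X⟦i⟧)) := by
  rw [IsZero.iff_id_eq_zero]
  have h1 : R.H.map (s⟦i⟧') ≫ R.H.map (r⟦i⟧') = 𝟙 _ := by
    rw [← Functor.map_comp, ← Functor.map_comp, hsr, CategoryTheory.Functor.map_id, CategoryTheory.Functor.map_id]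
  rw [← h1, hZ.eq_of_tgt (R.H.map (s⟦i⟧')) 0, zero_comp]

/-- truncations of a direct summand -/
lemma trunc_retract [IsIdempotentComplete C]
    (orth : ∀ {X Y : C} (f : X ⟶ Y), CohLE R 0 X → CohGE R 1 Y → f = 0)
    {X Z A B : C} {a : A ⟶ Z} {b : Z ⟶ B} {c : B ⟶ A⟦(1 : ℤ)⟧}
    (hT : Triangle.mk a b c ∈ distTriang C) (hA : CohLE R 0 A) (hB : CohGE R 1 B)
    (s : X ⟶ Z) (r : Z ⟶ X) (hsr : s ≫ r = 𝟙 X) :
    ∃ (A₀ B₀ : C) (f : A₀ ⟶ X) (g : X ⟶ B₀) (h : B₀ ⟶ A₀⟦(1 : ℤ)⟧),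
      Triangle.mk f g h ∈ distTriang C ∧ CohLE R 0 A₀ ∧ CohGE R 1 B₀ := by
  obtain ⟨e, he⟩ : ∃ e : Z ⟶ Z, e = r ≫ s := ⟨_, rfl⟩
  have hee : e ≫ e = e := by
    rw [he, Category.assoc, ← Category.assoc s r s, hsr, Category.id_comp]
  have hres : e ≫ r = r := by rw [he, Category.assoc, hsr, Category.comp_id]
  have hse : s ≫ e = s := by rw [he, ← Category.assoc, hsr, Category.id_comp]
  -- the endomorphism of A
  obtain ⟨α, hα⟩ : ∃ α : A ⟶ A, a ≫ e = α ≫ a := by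
    refine ce2 hT (a ≫ e) ?_
    exact orth _ hA hB
  have huniq : ∀ β : A ⟶ A, β ≫ a = 0 → β = 0 := by
    intro β hβ
    have h1 := ce1 (C := C) hT (W := A⟦(1 : ℤ)⟧) (β⟦(1 : ℤ)⟧') (by
      rw [← Functor.map_comp, hβ, Functor.map_zero])
    obtain ⟨l, hl⟩ := h1
    have h2 : l = 0 := by
      have hA1 : CohLE R (-1) (A⟦(1 : ℤ)⟧) := CohLE.shift (by omega) hA
      exact orth l (fun i hi => hA1 i (by omega)) hB
    have h3 : β⟦(1 : ℤ)⟧' = 0 := by rw [hl, h2, zero_comp]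
    exact (shiftFunctor C (1 : ℤ)).map_injective (by rw [h3, Functor.map_zero])
  have hαα : α ≫ α = α := by
    have h1 : (α ≫ α - α) ≫ a = 0 := by
      rw [Preadditive.sub_comp, Category.assoc, ← hα, ← Category.assoc, ← hα, Category.assoc,
        hee, sub_self]
    exact sub_eq_zero.1 (huniq _ h1)
  obtain ⟨A₀, q, p, hqp, hpq⟩ := IsIdempotentComplete.idempotents_split A α hαα
  obtain ⟨a₀, ha₀⟩ : ∃ a₀ : A₀ ⟶ X, a₀ = q ≫ a ≫ r := ⟨_, rfl⟩
  have sq1 : q ≫ a = a₀ ≫ s := by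
    rw [ha₀, Category.assoc, Category.assoc, ← he, hα, ← hpq, ← Category.assoc, ← Category.assoc,
      hqp, Category.id_comp]
  have sq2 : p ≫ a₀ = a ≫ r := by
    rw [ha₀, ← Category.assoc, hpq, ← Category.assoc, ← hα, Category.assoc, hres]
  obtain ⟨B₀, g, h, hT₀⟩ := distinguished_cocone_triangle a₀
  refine ⟨A₀, B₀, a₀, g, h, hT₀, fun i hi => retract_coh q p hqp (hA i hi), fun i hi => ?_⟩
  have hep : Epi (R.H.map (a⟦i⟧')) := hepi1 R.H hT i (hB i hi)
  have hmo : Mono (R.H.map (a⟦i + 1⟧')) := hmono1 R.H hT (i + 1) (by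
    have := hB i hi
    rwa [show i + 1 - 1 = i by omega])
  apply hz3' R.H hT₀ i
  · -- epi
    constructor
    intro W k k' hk
    have e1 : R.H.map (a⟦i⟧') ≫ R.H.map (r⟦i⟧') ≫ k = R.H.map (a⟦i⟧') ≫ R.H.map (r⟦i⟧') ≫ k' := by
      have e2 : R.H.map (a⟦i⟧') ≫ R.H.map (r⟦i⟧') = R.H.map (p⟦i⟧') ≫ R.H.map (a₀⟦i⟧') := by
        rw [← Functor.map_comp, ← Functor.map_comp, ← Functor.map_comp, ← Functor.map_comp, sq2]
      rw [← Category.assoc, ← Category.assoc, e2, Category.assoc, Category.assoc, hk]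
    have e3 := (cancel_epi (R.H.map (a⟦i⟧'))).1 e1
    have e4 : R.H.map (s⟦i⟧') ≫ R.H.map (r⟦i⟧') = 𝟙 _ := by
      rw [← Functor.map_comp, ← Functor.map_comp, hsr, CategoryTheory.Functor.map_id, CategoryTheory.Functor.map_id]
    calc k = (R.H.map (s⟦i⟧') ≫ R.H.map (r⟦i⟧')) ≫ k := by rw [e4, Category.id_comp]
      _ = (R.H.map (s⟦i⟧') ≫ R.H.map (r⟦i⟧')) ≫ k' := by
        rw [Category.assoc, Category.assoc, e3]
      _ = k' := by rw [e4, Category.id_comp]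
  · -- mono
    constructor
    intro W k k' hk
    have e1 : (k ≫ R.H.map (q⟦i + 1⟧')) ≫ R.H.map (a⟦i + 1⟧') =
        (k' ≫ R.H.map (q⟦i + 1⟧')) ≫ R.H.map (a⟦i + 1⟧') := by
      have e2 : R.H.map (q⟦i + 1⟧') ≫ R.H.map (a⟦i + 1⟧') =
          R.H.map (a₀⟦i + 1⟧') ≫ R.H.map (s⟦i + 1⟧') := by
        rw [← Functor.map_comp, ← Functor.map_comp, ← Functor.map_comp, ← Functor.map_comp, sq1]
      rw [Category.assoc, Category.assoc, e2, ← Category.assoc, ← Category.assoc, hk]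
    have e3 := (cancel_mono (R.H.map (a⟦i + 1⟧'))).1 e1
    have e4 : R.H.map (q⟦i + 1⟧') ≫ R.H.map (p⟦i + 1⟧') = 𝟙 _ := by
      rw [← Functor.map_comp, ← Functor.map_comp, hqp, CategoryTheory.Functor.map_id, CategoryTheory.Functor.map_id]
    calc k = (k ≫ R.H.map (q⟦i + 1⟧')) ≫ R.H.map (p⟦i + 1⟧') := by
          rw [Category.assoc, e4, Category.comp_id]
      _ = (k' ≫ R.H.map (q⟦i + 1⟧')) ≫ R.H.map (p⟦i + 1⟧') := by rw [e3]
      _ = k' := by rw [Category.assoc, e4, Category.comp_id]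

end one

end Pool.Agent.H138.MTB
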