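import Pool.Agent.V1151.MTC.Defs

/-!
# Categories of motives over several fields: definitions
-/

set_option autoImplicit false

open CategoryTheory Limits MonoidalCategory Pretriangulated Triangulated

namespace Pool.Agent.H138.MTB

universe v u w x

open Pool.Agent.Y116.MT Pool.Agent.V1151.MTC

/-- A rigid tensor triangulated category `C` with split idempotents, such that the unit object has
no nontrivial idempotent endomorphisms, with realisations `R l` (for a field `k` the category
`DM_c(k)` of constructible Voevodsky motives with rational coefficients and its `ℓ`-adic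
realisations). -/
structure MotCat (Λ : Type x) (E : Λ → Type w) [∀ l, Field (E l)] where
  C : Type u
  [category : Category.{v} C]
  [preadditive : Preadditive C]
  [zeroObject : HasZeroObject C]
  [hasShift : HasShift C ℤ]
  [shiftAdditive : ∀ n : ℤ, (shiftFunctor C n).Additive]
  [pretriangulated : Pretriangulated C]
  [triangulated : IsTriangulated C]
  [monoidal : MonoidalCategory C]
  [symmetric : SymmetricCategory C]
  [tensor : TensorTriangulated C]
  [monoidalPreadditive : MonoidalPreadditive C]
  [rigid : RightRigidCategory C]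
  [idempotents : IsIdempotentComplete C]
  unit_idempotents : ∀ e : 𝟙_ C ⟶ 𝟙_ C, e ≫ e = e → e = 0 ∨ e = 𝟙 _
  R : ∀ l, Realisation C (E l)

attribute [instance] MotCat.category MotCat.preadditive MotCat.zeroObject MotCat.hasShift
  MotCat.shiftAdditive MotCat.pretriangulated MotCat.triangulated MotCat.monoidal MotCat.symmetric
  MotCat.tensor MotCat.monoidalPreadditive MotCat.rigid MotCat.idempotents

variable {Λ : Type x} {E : Λ → Type w} [∀ l, Field (E l)]

/-- There is a motivic t-structure: non-degenerate, compatible with the tensor product, and such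
that all realisations are t-exact. -/
def HasMotivicT (M : MotCat.{v, u, w, x} Λ E) : Prop := ∃ t : TStructure M.C, IsMotivic t M.R

/-- A triangulated functor compatible with the realisations (for an extension `K/k` of fields the
base change `DM_c(k) ⥤ DM_c(K)`). -/
structure BaseChange (M N : MotCat.{v, u, w, x} Λ E) where
  F : M.C ⥤ N.C
  [commShift : F.CommShift ℤ]
  [exact : F.IsTriangulated]
  realisation (l : Λ) : Nonempty (F ⋙ (N.R l).H ≅ (M.R l).H)

attribute [instance] BaseChange.commShift BaseChange.exact

/-- A right adjoint with the properties of the push-forward along a finite separable extension: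
the unit of the adjunction has retractions (transfer), the counit has sections, and the
cohomology of a push-forward vanishes where that of the object vanishes. -/
structure Transfer {M N : MotCat.{v, u, w, x} Λ E} (P : BaseChange M N) where
  G : N.C ⥤ M.C
  [commShift : G.CommShift ℤ]
  [exact : G.IsTriangulated]
  adj : P.F ⊣ G
  unit (X : M.C) : IsSplitMono (adj.unit.app X)
  counit (Y : N.C) : IsSplitEpi (adj.counit.app Y)
  realisation (l : Λ) (Y : N.C) : IsZero ((N.R l).H.obj Y) → IsZero ((M.R l).H.obj (G.obj Y))

attribute [instance] Transfer.commShift Transfer.exact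

/-- Triangles descend, up to direct summands (specialisation): if `A' ⟶ F X ⟶ B' ⟶ A'⟦1⟧` is a
distinguished triangle in `N`, then `X` is a direct summand of an object `Z` which is in a
distinguished triangle `A ⟶ Z ⟶ B ⟶ A⟦1⟧` in `M` such that, for the realisation with index `l`,
`H^i(A) = 0` if `H^i(A') = 0`, and `H^i(B) = 0` if `H^i(B') = 0`. -/
def DescendsTriangles {M N : MotCat.{v, u, w, x} Λ E} (P : BaseChange M N) (l : Λ) : Prop :=
  ∀ (X : M.C) (A' B' : N.C) (f' : A' ⟶ P.F.obj X) (g' : P.F.obj X ⟶ B')
    (h' : B' ⟶ A'⟦(1 : ℤ)⟧), Triangle.mk f' g' h' ∈ distTriang N.C →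
    ∃ (Z A B : M.C) (f : A ⟶ Z) (g : Z ⟶ B) (h : B ⟶ A⟦(1 : ℤ)⟧) (s : X ⟶ Z) (r : Z ⟶ X),
      Triangle.mk f g h ∈ distTriang M.C ∧ s ≫ r = 𝟙 X ∧
      (∀ i : ℤ, IsZero ((N.R l).H.obj (A'⟦i⟧)) → IsZero ((M.R l).H.obj (A⟦i⟧))) ∧
      ∀ i : ℤ, IsZero ((N.R l).H.obj (B'⟦i⟧)) → IsZero ((M.R l).H.obj (B⟦i⟧))

/-- Every morphism of `N` comes from some `M i` (for a field which is a directed union of
subfields). -/
def Exhausts {ι : Type*} {M : ι → MotCat.{v, u, w, x} Λ E} {N : MotCat.{v, u, w, x} Λ E}
    (P : ∀ i, BaseChange (M i) N) : Prop :=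
  ∀ (X Y : N.C) (f : X ⟶ Y), ∃ (i : ι) (X₁ Y₁ : (M i).C) (g : X₁ ⟶ Y₁),
    Nonempty (Arrow.mk ((P i).F.map g) ≅ Arrow.mk f)

/-- The situation of an algebraic separable extension `K/k`, with its finite subextensions `k_i`:
`M`, `K i`, `N` are the categories of `k`, `k_i`, `K`. The base changes `P i` from `k` to `k_i`
have transfers, every morphism of `N` comes from some `K i`, and so does every morphism in `N`
whose target is the base change of an object `X` of `M` (with target the base change of `X`), and a
morphism of `M` which becomes zero in `N` becomes zero in some `K i`. -/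
structure IsAlgebraicExtension {ι : Type*} {M N : MotCat.{v, u, w, x} Λ E}
    {K : ι → MotCat.{v, u, w, x} Λ E} (P : ∀ i, BaseChange M (K i))
    (Q : ∀ i, BaseChange (K i) N) (Q₀ : BaseChange M N) : Prop where
  comp (i : ι) : Nonempty ((P i).F ⋙ (Q i).F ≅ Q₀.F)
  transfer (i : ι) : Nonempty (Transfer (P i))
  exhausts : Exhausts Q
  source (X : M.C) (A' : N.C) (f' : A' ⟶ Q₀.F.obj X) : ∃ (i : ι) (A : (K i).C)
    (f : A ⟶ (P i).F.obj X), Nonempty (Arrow.mk ((Q i).F.map f) ≅ Arrow.mk f')
  faithful (X Y : M.C) (f : X ⟶ Y) : Q₀.F.map f = 0 → ∃ i, (P i).F.map f = 0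

/-- The situation of a class `Φ` of fields of the same characteristic, with a universal domain `Ω`
(an algebraically closed field of infinite transcendence degree over the prime field, such as `ℂ`).
`M k` is the category of the field `k`, `fg` is the set of the finitely generated fields.
Every field is a directed union of finitely generated fields. Every finitely generated field `k`
has an algebraic closure `K` in `Φ`, which is contained in `Ω`, and the base change from `K` to `Ω` is
faithful and triangles descend along it (by specialisation), for the realisation with index `l`. -/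
structure IsUniversalDomain {Φ : Type*} (M : Φ → MotCat.{v, u, w, x} Λ E) (fg : Set Φ) (Ω : Φ)
    (l : Λ) : Prop where
  union (K : Φ) : ∃ (ι : Type) (k : ι → Φ) (P : ∀ i, BaseChange (M (k i)) (M K)),
    (∀ i, k i ∈ fg) ∧ Exhausts P
  closure (k : Φ) : k ∈ fg → ∃ (K : Φ) (ι : Type) (k' : ι → Φ)
    (P : ∀ i, BaseChange (M k) (M (k' i))) (Q : ∀ i, BaseChange (M (k' i)) (M K))
    (Q₀ : BaseChange (M k) (M K)) (S : BaseChange (M K) (M Ω)),
    IsAlgebraicExtension P Q Q₀ ∧ S.F.Faithful ∧ DescendsTriangles S l

end Pool.Agent.H138.MTB
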