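import Pool.Agent.H138.MTB.Core
import Pool.Agent.H138.MTB.Defs

/-!
# Motivic t-structures and change of the base field
-/

set_option autoImplicit false
set_option linter.unusedSectionVars false
set_option linter.unusedSimpArgs false
set_option backward.isDefEq.respectTransparency false
set_option backward.defeqAttrib.useBackward true

open CategoryTheory Limits MonoidalCategory Pretriangulated Triangulated

namespace Pool.Agent.H138.MTB

universe v u w x

open Pool.Agent.Y116.MT Pool.Agent.V1151.MTC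

variable {Λ : Type x} {E : Λ → Type w} [∀ l, Field (E l)]

variable {M N : MotCat.{v, u, w, x} Λ E}

lemma intrinsic_iff (M : MotCat.{v, u, w, x} Λ E) (l₀ : Λ) :
    HasMotivicT M ↔ Intrinsic M.R l₀ :=
  (main M.R l₀ M.unit_idempotents).out 0 3

lemma coh_iff (P : BaseChange M N) (l : Λ) (X : M.C) (i : ℤ) :
    IsZero ((N.R l).H.obj ((P.F.obj X)⟦i⟧)) ↔ IsZero ((M.R l).H.obj (X⟦i⟧)) := by
  obtain ⟨e⟩ := P.realisation l
  exact ((N.R l).H.mapIso ((P.F.commShiftIso i).app X).symm ≪≫ e.app (X⟦i⟧)).isZero_iff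

lemma coh_push {P : BaseChange M N} (T : Transfer P) (l : Λ) (Y : N.C) (i : ℤ)
    (h : IsZero ((N.R l).H.obj (Y⟦i⟧))) : IsZero ((M.R l).H.obj ((T.G.obj Y)⟦i⟧)) :=
  (T.realisation l _ h).of_iso ((M.R l).H.mapIso ((T.G.commShiftIso i).app Y).symm)

lemma coh_iso (l : Λ) {X Y : M.C} (e : X ≅ Y) {i : ℤ} (h : IsZero ((M.R l).H.obj (X⟦i⟧))) :
    IsZero ((M.R l).H.obj (Y⟦i⟧)) :=
  h.of_iso ((M.R l).H.mapIso ((shiftFunctor M.C i).mapIso e.symm))

/-- descent along a faithful functor -/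
theorem descend (P : BaseChange M N) (l₀ : Λ)
    (hF : ∀ {X Y : M.C} (f : X ⟶ Y), P.F.map f = 0 → f = 0)
    (hD : DescendsTriangles P l₀) (hN : HasMotivicT N) : HasMotivicT M := by
  have h := (intrinsic_iff N l₀).1 hN
  have orth : ∀ {X Y : M.C} (f : X ⟶ Y), CohLE (M.R l₀) 0 X → CohGE (M.R l₀) 1 Y → f = 0 := by
    intro X Y f hX hY
    exact hF f (h.orthogonal _ (fun i hi => (coh_iff P l₀ X i).2 (hX i hi))
      fun i hi => (coh_iff P l₀ Y i).2 (hY i hi))
  refine (intrinsic_iff M l₀).2 ⟨?_, orth, ?_, ?_⟩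
  · intro X hX
    have h1 : IsZero (P.F.obj X) := h.conservative _ fun i => (coh_iff P l₀ X i).2 (hX i)
    rw [IsZero.iff_id_eq_zero]
    apply hF
    rw [CategoryTheory.Functor.map_id]
    exact (IsZero.iff_id_eq_zero _).1 h1
  · intro X
    obtain ⟨A', B', f', g', h', hT, hA, hB⟩ := h.truncation (P.F.obj X)
    obtain ⟨Z, A, B, f, g, k, s, r, hT', hsr, hA', hB'⟩ := hD X A' B' f' g' h' hT
    exact trunc_retract orth hT' (fun i hi => hA' i (hA i hi)) (fun i hi => hB' i (hB i hi)) s r hsr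
  · intro l X
    exact ⟨fun hX i hi => (coh_iff P l X i).1 ((h.amplitude l (P.F.obj X)).1
      (fun j hj => (coh_iff P l₀ X j).2 (hX j hj)) i hi),
      fun hX i hi => (coh_iff P l X i).1 ((h.amplitude l (P.F.obj X)).2
      (fun j hj => (coh_iff P l₀ X j).2 (hX j hj)) i hi)⟩

lemma transfer_faithful {P : BaseChange M N} (T : Transfer P) {X Y : M.C} (f : X ⟶ Y)
    (hf : P.F.map f = 0) : f = 0 := by
  have h1 := T.unit Y
  rw [← cancel_mono (T.adj.unit.app Y)]
  have h2 := T.adj.unit.naturality f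
  simp only [CategoryTheory.Functor.id_map, CategoryTheory.Functor.id_obj, CategoryTheory.Functor.comp_map] at h2
  rw [h2, hf, CategoryTheory.Functor.map_zero, comp_zero, zero_comp]

lemma transfer_descends {P : BaseChange M N} (T : Transfer P) (l : Λ) : DescendsTriangles P l := by
  intro X A' B' f' g' h' hT
  obtain ⟨⟨⟨r, hr⟩⟩⟩ := T.unit X
  exact ⟨T.G.obj (P.F.obj X), T.G.obj A', T.G.obj B', T.G.map f', T.G.map g',
    T.G.map h' ≫ (T.G.commShiftIso (1 : ℤ)).hom.app A', T.adj.unit.app X, r,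
    T.G.map_distinguished _ hT, hr, fun i => coh_push T l A' i, fun i => coh_push T l B' i⟩

/-- finite extensions -/
theorem finite {P : BaseChange M N} (T : Transfer P) (l₀ : Λ) :
    HasMotivicT M ↔ HasMotivicT N := by
  constructor
  · intro hM
    have h := (intrinsic_iff M l₀).1 hM
    have hG : ∀ {X Y : N.C} (f : X ⟶ Y), T.G.map f = 0 → f = 0 := by
      intro X Y f hf
      have h1 := T.counit X
      rw [← cancel_epi (T.adj.counit.app X)]
      have h2 := T.adj.counit.naturality f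
      simp only [CategoryTheory.Functor.id_map, CategoryTheory.Functor.id_obj, CategoryTheory.Functor.comp_map] at h2
      rw [← h2, hf, CategoryTheory.Functor.map_zero, comp_zero, zero_comp]
    have orth : ∀ {X Y : N.C} (f : X ⟶ Y), CohLE (N.R l₀) 0 X → CohGE (N.R l₀) 1 Y → f = 0 := by
      intro X Y f hX hY
      exact hG f (h.orthogonal _ (fun i hi => coh_push T l₀ X i (hX i hi))
        fun i hi => coh_push T l₀ Y i (hY i hi))
    refine (intrinsic_iff N l₀).2 ⟨?_, orth, ?_, ?_⟩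
    · intro X hX
      have h1 : IsZero (T.G.obj X) := h.conservative _ fun i => coh_push T l₀ X i (hX i)
      rw [IsZero.iff_id_eq_zero]
      apply hG
      rw [CategoryTheory.Functor.map_id]
      exact (IsZero.iff_id_eq_zero _).1 h1
    · intro X
      obtain ⟨A, B, f, g, k, hT, hA, hB⟩ := h.truncation (T.G.obj X)
      obtain ⟨⟨⟨s, hs⟩⟩⟩ := T.counit X
      exact trunc_retract orth (P.F.map_distinguished _ hT)
        (fun i hi => (coh_iff P l₀ A i).2 (hA i hi)) (fun i hi => (coh_iff P l₀ B i).2 (hB i hi))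
        s (T.adj.counit.app X) hs
    · intro l X
      obtain ⟨⟨⟨s, hs⟩⟩⟩ := T.counit X
      exact ⟨fun hX i hi => retract_coh s (T.adj.counit.app X) hs ((coh_iff P l _ i).2
          ((h.amplitude l (T.G.obj X)).1 (fun j hj => coh_push T l₀ X j (hX j hj)) i hi)),
        fun hX i hi => retract_coh s (T.adj.counit.app X) hs ((coh_iff P l _ i).2
          ((h.amplitude l (T.G.obj X)).2 (fun j hj => coh_push T l₀ X j (hX j hj)) i hi))⟩
  · exact descend P l₀ (transfer_faithful T) (transfer_descends T l₀)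

/-- directed unions of fields -/
theorem colimit {ι : Type*} {M : ι → MotCat.{v, u, w, x} Λ E} {N : MotCat.{v, u, w, x} Λ E}
    (P : ∀ i, BaseChange (M i) N) (l₀ : Λ) (hP : Exhausts P) (hM : ∀ i, HasMotivicT (M i)) :
    HasMotivicT N := by
  have h := fun i => (intrinsic_iff (M i) l₀).1 (hM i)
  have hob : ∀ X : N.C, ∃ (i : ι) (X₁ : (M i).C), Nonempty ((P i).F.obj X₁ ≅ X) := by
    intro X
    obtain ⟨i, X₁, Y₁, g, ⟨e⟩⟩ := hP X X (𝟙 X)
    exact ⟨i, X₁, ⟨Arrow.leftFunc.mapIso e⟩⟩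
  have orth : ∀ {X Y : N.C} (f : X ⟶ Y), CohLE (N.R l₀) 0 X → CohGE (N.R l₀) 1 Y → f = 0 := by
    intro X Y f hX hY
    obtain ⟨i, X₁, Y₁, g, ⟨e⟩⟩ := hP X Y f
    have eX : (P i).F.obj X₁ ≅ X := Arrow.leftFunc.mapIso e
    have eY : (P i).F.obj Y₁ ≅ Y := Arrow.rightFunc.mapIso e
    have hg : g = 0 := (h i).orthogonal g
      (fun j hj => (coh_iff (P i) l₀ X₁ j).1 (coh_iso l₀ eX.symm (hX j hj)))
      fun j hj => (coh_iff (P i) l₀ Y₁ j).1 (coh_iso l₀ eY.symm (hY j hj))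
    have h1 : e.inv.left ≫ (P i).F.map g ≫ e.hom.right = f := by
      have h2 : e.hom.left ≫ f = (P i).F.map g ≫ e.hom.right := e.hom.w
      have h3 : e.inv.left ≫ e.hom.left = 𝟙 _ := by
        rw [← Arrow.comp_left, e.inv_hom_id]
        rfl
      rw [← h2, ← Category.assoc, h3]
      exact Category.id_comp _
    have key : ∀ v : (P i).F.obj Y₁ ⟶ Y, (P i).F.map g ≫ v = 0 := fun v => by
      rw [hg, CategoryTheory.Functor.map_zero, zero_comp]
    rw [← h1, key e.hom.right, comp_zero]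
  refine (intrinsic_iff N l₀).2 ⟨?_, orth, ?_, ?_⟩
  · intro X hX
    obtain ⟨i, X₁, ⟨e⟩⟩ := hob X
    have h1 : IsZero X₁ := (h i).conservative _ fun j =>
      (coh_iff (P i) l₀ X₁ j).1 (coh_iso l₀ e.symm (hX j))
    exact ((P i).F.map_isZero h1).of_iso e.symm
  · intro X
    obtain ⟨i, X₁, ⟨e⟩⟩ := hob X
    obtain ⟨A, B, f, g, k, hT, hA, hB⟩ := (h i).truncation X₁
    exact trunc_retract orth ((P i).F.map_distinguished _ hT)
        (fun j hj => (coh_iff (P i) l₀ A j).2 (hA j hj))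
        (fun j hj => (coh_iff (P i) l₀ B j).2 (hB j hj)) e.inv e.hom e.inv_hom_id
  · intro l X
    obtain ⟨i, X₁, ⟨e⟩⟩ := hob X
    exact ⟨fun hX j hj => coh_iso l e ((coh_iff (P i) l _ j).2
        (((h i).amplitude l X₁).1 (fun j hj => (coh_iff (P i) l₀ X₁ j).1
          (coh_iso l₀ e.symm (hX j hj))) j hj)),
      fun hX j hj => coh_iso l e ((coh_iff (P i) l _ j).2
        (((h i).amplitude l X₁).2 (fun j hj => (coh_iff (P i) l₀ X₁ j).1
          (coh_iso l₀ e.symm (hX j hj))) j hj))⟩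

/-- algebraic extensions: triangles descend -/
theorem algebraic_descends {ι : Type*} {M N : MotCat.{v, u, w, x} Λ E} {K : ι → MotCat.{v, u, w, x} Λ E}
    (P : ∀ i, BaseChange M (K i)) (Q : ∀ i, BaseChange (K i) N) (Q₀ : BaseChange M N)
    (hA : IsAlgebraicExtension P Q Q₀) (l : Λ) : DescendsTriangles Q₀ l := by
  intro X A' B' f' g' h' hT
  obtain ⟨i, A₁, a₁, ⟨e⟩⟩ := hA.source X A' f'
  obtain ⟨T⟩ := hA.transfer i
  obtain ⟨B₁, b₁, c₁, hT₁⟩ := distinguished_cocone_triangle a₁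
  obtain ⟨⟨⟨r, hr⟩⟩⟩ := T.unit X
  have eA : (Q i).F.obj A₁ ≅ A' := Arrow.leftFunc.mapIso e
  have e3 := isoTriangleOfIso₁₂ _ _ ((Q i).F.map_distinguished _ hT₁) hT
    (Arrow.leftFunc.mapIso e) (Arrow.rightFunc.mapIso e) (e.hom.w).symm
  have eB : (Q i).F.obj B₁ ≅ B' := Triangle.π₃.mapIso e3
  exact ⟨T.G.obj ((P i).F.obj X), T.G.obj A₁, T.G.obj B₁, T.G.map a₁, T.G.map b₁,
    T.G.map c₁ ≫ (T.G.commShiftIso (1 : ℤ)).hom.app A₁, T.adj.unit.app X, r,
    T.G.map_distinguished _ hT₁, hr,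
    fun j hj => coh_push T l A₁ j ((coh_iff (Q i) l A₁ j).1 (coh_iso l eA.symm hj)),
    fun j hj => coh_push T l B₁ j ((coh_iff (Q i) l B₁ j).1 (coh_iso l eB.symm hj))⟩

/-- algebraic extensions -/
theorem algebraic {ι : Type*} {M N : MotCat.{v, u, w, x} Λ E} {K : ι → MotCat.{v, u, w, x} Λ E}
    (P : ∀ i, BaseChange M (K i)) (Q : ∀ i, BaseChange (K i) N) (Q₀ : BaseChange M N)
    (hA : IsAlgebraicExtension P Q Q₀) (l₀ : Λ) : HasMotivicT M ↔ HasMotivicT N := by
  constructor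
  · intro hM
    refine colimit Q l₀ hA.exhausts fun i => ?_
    obtain ⟨T⟩ := hA.transfer i
    exact (finite T l₀).1 hM
  · refine descend Q₀ l₀ (fun {X Y} f hf => ?_) (algebraic_descends P Q Q₀ hA l₀)
    obtain ⟨i, hi⟩ := hA.faithful X Y f hf
    obtain ⟨T⟩ := hA.transfer i
    exact transfer_faithful T f hi

/-- universal domains -/
theorem universal {Φ : Type*} (M : Φ → MotCat.{v, u, w, x} Λ E) (fg : Set Φ) (Ω : Φ) (l : Λ)
    (h : IsUniversalDomain M fg Ω l) : (∀ k, HasMotivicT (M k)) ↔ HasMotivicT (M Ω) := by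
  refine ⟨fun hk => hk Ω, fun hΩ K => ?_⟩
  obtain ⟨ι, k, P, hk, hP⟩ := h.union K
  refine colimit P l hP fun i => ?_
  obtain ⟨L, ι', k', P', Q, Q₀, S, hA, hS, hD⟩ := h.closure (k i) (hk i)
  refine (algebraic P' Q Q₀ hA l).2 (descend S l (fun {X Y} f hf => ?_) hD hΩ)
  exact S.F.map_injective (by rw [hf, CategoryTheory.Functor.map_zero])

/-- the functors are t-exact and detect the t-structures -/
theorem exactness (P : BaseChange M N) (l₀ : Λ) {t : TStructure M.C} {t' : TStructure N.C}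
    (ht : IsMotivic t M.R) (ht' : IsMotivic t' N.R) (n : ℤ) (X : M.C) :
    (t.le n X ↔ t'.le n (P.F.obj X)) ∧ (t.ge n X ↔ t'.ge n (P.F.obj X)) := by
  have h1 := isDefinedBy (mot_exact ht l₀) (mot_conservative ht M.unit_idempotents l₀)
  have h2 := isDefinedBy (mot_exact ht' l₀) (mot_conservative ht' N.unit_idempotents l₀)
  constructor
  · rw [(h1 n X).1, (h2 n _).1]
    exact ⟨fun h i hi => (coh_iff P l₀ X i).2 (h i hi), fun h i hi => (coh_iff P l₀ X i).1 (h i hi)⟩
  · rw [(h1 n X).2, (h2 n _).2]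
    exact ⟨fun h i hi => (coh_iff P l₀ X i).2 (h i hi), fun h i hi => (coh_iff P l₀ X i).1 (h i hi)⟩

end Pool.Agent.H138.MTB
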